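import Pool.Agent.Helper88.LG.Goals
import Pool.Agent.Helper56.Mertens

/-!
# PH: the ratio of a primorial and its totient is `≪ log y`
-/

set_option autoImplicit false

open Finset Filter Topology

namespace Pool.Agent.Helper75.LG

open Pool.Agent.Helper88.LG

theorem ratio_eq (d : ℕ) (hd : d ≠ 0) :
    (d : ℝ) / (Nat.totient d : ℝ) = ∏ p ∈ d.primeFactors, (1 - 1 / (p : ℝ))⁻¹ := by
  have h := Nat.totient_eq_mul_prod_factors d
  have h2 : ((Nat.totient d : ℚ) : ℝ) = ((d * ∏ p ∈ d.primeFactors, (1 - (p : ℚ)⁻¹) : ℚ) : ℝ) := by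
    rw [h]
  push_cast at h2
  have hd' : (d : ℝ) ≠ 0 := Nat.cast_ne_zero.2 hd
  simp only [one_div]
  rw [h2, Finset.prod_inv_distrib, mul_comm, ← div_div, div_right_comm, div_self hd', one_div]

theorem ratio_primorial (y : ℕ) :
    (primorial y : ℝ) / (Nat.totient (primorial y) : ℝ) = Real.exp (Helper56.ax y) := by
  rw [ratio_eq _ (primorial_pos y).ne']
  have hpf : (primorial y).primeFactors = (Finset.Ioc 0 y).filter Nat.Prime := by
    ext p
    rw [Nat.mem_primeFactors_of_ne_zero (primorial_pos y).ne', mem_filter, mem_Ioc]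
    constructor
    · rintro ⟨hp, hd⟩
      refine ⟨⟨hp.pos, ?_⟩, hp⟩
      exact (Nat.Prime.dvd_primorial_iff hp).1 hd
    · rintro ⟨⟨_, hy⟩, hp⟩
      exact ⟨hp, (Nat.Prime.dvd_primorial_iff hp).2 hy⟩
  rw [hpf, Helper56.ax, Nat.floor_natCast, Real.exp_sum, Finset.prod_filter]
  refine Finset.prod_congr rfl fun n hn => ?_
  unfold Helper56.al
  split_ifs with hp
  · have h2 : (2 : ℝ) ≤ n := by exact_mod_cast hp.two_le
    have h3 : (0 : ℝ) < 1 - 1 / (n : ℝ) := by
      rw [sub_pos, div_lt_one (by linarith)]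
      linarith
    rw [Real.exp_neg, Real.exp_log h3]
  · rw [Real.exp_zero]

theorem ph : StmtPH := by
  have h := Helper56.ax_sub_loglog_tendsto
  have h1 : ∀ᶠ x : ℝ in atTop, Helper56.ax x - Real.log (Real.log x) <
      Real.eulerMascheroniConstant + 1 :=
    h.eventually (gt_mem_nhds (by linarith))
  obtain ⟨X, hX⟩ := (h1.and (eventually_ge_atTop (2 : ℝ))).exists_forall_of_atTop
  have hlog2 : 0 < Real.log 2 := Real.log_pos (by norm_num)
  refine ⟨max (Real.exp (Real.eulerMascheroniConstant + 1))
    (Real.exp (Helper56.ax X) / Real.log 2), lt_max_of_lt_left (Real.exp_pos _), ?_⟩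
  intro y hy
  rw [ratio_primorial]
  have hy2 : (2 : ℝ) ≤ y := by exact_mod_cast hy
  have hly : Real.log 2 ≤ Real.log y := Real.log_le_log (by norm_num) hy2
  rcases le_total X (y : ℝ) with hXy | hXy
  · have h2 := (hX y hXy).1
    have h3 : Helper56.ax y ≤ (Real.eulerMascheroniConstant + 1) + Real.log (Real.log y) := by
      linarith
    calc Real.exp (Helper56.ax y)
        ≤ Real.exp ((Real.eulerMascheroniConstant + 1) + Real.log (Real.log y)) :=
          Real.exp_le_exp.2 h3
      _ = Real.exp (Real.eulerMascheroniConstant + 1) * Real.log y := by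
          rw [Real.exp_add, Real.exp_log (by linarith)]
      _ ≤ _ := by
          apply mul_le_mul_of_nonneg_right (le_max_left _ _) (by linarith)
  · calc Real.exp (Helper56.ax y) ≤ Real.exp (Helper56.ax X) :=
          Real.exp_le_exp.2 (Helper56.ax_mono hXy)
      _ = Real.exp (Helper56.ax X) / Real.log 2 * Real.log 2 := by
          field_simp
      _ ≤ Real.exp (Helper56.ax X) / Real.log 2 * Real.log y := by
          apply mul_le_mul_of_nonneg_left hly
          positivity
      _ ≤ _ := mul_le_mul_of_nonneg_right (le_max_right _ _) (by linarith)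

end Pool.Agent.Helper75.LG

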